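import Mathlib

/-! The integers prime to `m` in an interval (as in `Pool.Agent.TH847.LM.Phi`, copied here to keep the
import closure small). -/

set_option autoImplicit false

namespace Pool.Agent.K9h92.EI
open Finset Filter
open scoped ArithmeticFunction.Moebius ArithmeticFunction.zeta

/-- the integers prime to `m` in `(x, x + H]` -/
noncomputable def Cp (m x H : ℕ) : Finset ℕ := by
  classical
  exact (Ioc x (x + H)).filter (fun n => n.Coprime m)

lemma cop_ind {m : ℕ} (hm : 0 < m) (n : ℕ) : (if n.Coprime m then (1 : ℝ) else 0) =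
    ∑ d ∈ m.divisors, if d ∣ n then ((μ d : ℤ) : ℝ) else 0 := by
  have h1 : m.divisors.filter (fun d => d ∣ n) = (n.gcd m).divisors := by
    ext d
    rw [mem_filter, Nat.mem_divisors, Nat.mem_divisors, Nat.dvd_gcd_iff]
    have h2 : n.gcd m ≠ 0 := (Nat.gcd_pos_of_pos_right n hm).ne'
    constructor
    · rintro ⟨⟨a, _⟩, b⟩
      exact ⟨⟨b, a⟩, h2⟩
    · rintro ⟨⟨a, b⟩, _⟩
      exact ⟨⟨b, hm.ne'⟩, a⟩
  rw [← sum_filter, h1]
  have h3 : ∑ d ∈ (n.gcd m).divisors, μ d = if n.gcd m = 1 then 1 else 0 := by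
    rw [← ArithmeticFunction.coe_mul_zeta_apply, ArithmeticFunction.moebius_mul_coe_zeta,
      ArithmeticFunction.one_apply]
  have h4 : ∑ d ∈ (n.gcd m).divisors, ((μ d : ℤ) : ℝ) = ((∑ d ∈ (n.gcd m).divisors, μ d : ℤ) : ℝ) := by
    push_cast
    rfl
  rw [h4, h3]
  unfold Nat.Coprime
  split_ifs <;> simp

lemma Cp_eq {m : ℕ} (hm : 0 < m) (x H : ℕ) : ((Cp m x H).card : ℝ) =
    ∑ d ∈ m.divisors, ((μ d : ℤ) : ℝ) * (((x + H) / d : ℕ) - (x / d : ℕ)) := by
  classical
  have e1 : ((Cp m x H).card : ℝ) = ∑ n ∈ Ioc x (x + H), (if n.Coprime m then (1 : ℝ) else 0) := by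
    unfold Cp
    rw [← sum_filter, sum_const, nsmul_eq_mul, mul_one]
  rw [e1, sum_congr rfl fun n _ => cop_ind hm n, sum_comm]
  apply sum_congr rfl
  intro d hd
  have hd0 : 0 < d := Nat.pos_of_mem_divisors hd
  rw [← sum_filter, sum_const, nsmul_eq_mul, mul_comm]
  congr 1
  have h1 : ((Ioc x (x + H)).filter (fun n => d ∣ n)).card + x / d = (x + H) / d := by
    have h2 : (Ioc 0 (x + H)).filter (fun n => d ∣ n) =
        (Ioc 0 x).filter (fun n => d ∣ n) ∪ (Ioc x (x + H)).filter (fun n => d ∣ n) := by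
      ext n; simp only [mem_union, mem_filter, mem_Ioc]; omega
    have h3 : Disjoint ((Ioc 0 x).filter (fun n => d ∣ n)) ((Ioc x (x + H)).filter (fun n => d ∣ n)) := by
      rw [disjoint_left]; intro n hn hn'
      rw [mem_filter, mem_Ioc] at hn hn'; omega
    have h4 := congrArg card h2
    rw [card_union_of_disjoint h3, Nat.Ioc_filter_dvd_card_eq_div, Nat.Ioc_filter_dvd_card_eq_div] at h4
    omega
  have h2 : (((Ioc x (x + H)).filter (fun n => d ∣ n)).card : ℝ) + (x / d : ℕ) = ((x + H) / d : ℕ) := by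
    exact_mod_cast h1
  linarith

/-- (as in `Pool.Agent.H38R2.CG.PV`) -/
lemma card_divisors_le (k : ℕ) (hk : 1 ≤ k) : (k.divisors.card : ℝ) ≤ 2 * √(k : ℝ) := by
  have hsub : k.divisors ⊆ Finset.Icc 1 (Nat.sqrt k) ∪ (Finset.Icc 1 (Nat.sqrt k)).image (k / ·) := by
    intro d hd
    rw [Nat.mem_divisors] at hd
    obtain ⟨⟨e, he⟩, hk0⟩ := hd
    have hd1 : 1 ≤ d := by
      rcases Nat.eq_zero_or_pos d with h | h
      · subst h; simp at he; omega
      · exact h
    have he1 : 1 ≤ e := by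
      rcases Nat.eq_zero_or_pos e with h | h
      · subst h; simp at he; omega
      · exact h
    rw [Finset.mem_union, Finset.mem_image]
    by_cases h : d ≤ Nat.sqrt k
    · left; exact Finset.mem_Icc.mpr ⟨hd1, h⟩
    · right
      refine ⟨e, Finset.mem_Icc.mpr ⟨he1, ?_⟩, ?_⟩
      · by_contra hcon
        have h1 : Nat.sqrt k + 1 ≤ d := by omega
        have h2 : Nat.sqrt k + 1 ≤ e := by omega
        have h3 : (Nat.sqrt k + 1) * (Nat.sqrt k + 1) ≤ d * e := Nat.mul_le_mul h1 h2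
        have h4 := Nat.lt_succ_sqrt k
        rw [Nat.succ_eq_add_one] at h4
        omega
      · show k / e = d
        rw [he]
        exact Nat.mul_div_cancel _ he1
  have h1 := (Finset.card_le_card hsub).trans (Finset.card_union_le _ _)
  have h2 : ((Finset.Icc 1 (Nat.sqrt k)).image (k / ·)).card ≤ Nat.sqrt k := by
    refine Finset.card_image_le.trans ?_
    rw [Nat.card_Icc]; omega
  rw [Nat.card_Icc] at h1
  have h3 : k.divisors.card ≤ 2 * Nat.sqrt k := by omega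
  have h4 : ((Nat.sqrt k : ℕ) : ℝ) ≤ √(k : ℝ) := Real.nat_sqrt_le_real_sqrt
  calc (k.divisors.card : ℝ) ≤ ((2 * Nat.sqrt k : ℕ) : ℝ) := by exact_mod_cast h3
    _ = 2 * (Nat.sqrt k : ℝ) := by push_cast; ring
    _ ≤ 2 * √(k : ℝ) := by linarith

lemma Cp_ge {m : ℕ} (hm : 0 < m) (x H : ℕ) :
    |((Cp m x H).card : ℝ) - (Nat.totient m : ℝ) / m * H| ≤ 2 * √(m : ℝ) := by
  classical
  have hmr : (0 : ℝ) < m := by exact_mod_cast hm
  have h0 : (Nat.totient m : ℝ) = ∑ d ∈ m.divisors, ((μ d : ℤ) : ℝ) * ((m : ℝ) / d) := by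
    have h1 := Cp_eq hm 0 m
    have h2 : (Cp m 0 m).card = Nat.totient m := by
      unfold Cp
      rw [zero_add]
      have := Nat.filter_coprime_Ico_eq_totient m 1
      rw [← this]
      congr 1
      ext n
      simp only [mem_filter, mem_Ioc, mem_Ico]
      rw [Nat.coprime_comm]
      constructor <;> rintro ⟨h, h'⟩ <;> exact ⟨by omega, h'⟩
    rw [h2] at h1
    rw [h1]
    apply sum_congr rfl
    intro d hd
    have hd0 : 0 < d := Nat.pos_of_mem_divisors hd
    rw [Nat.zero_div, Nat.cast_zero, sub_zero, zero_add,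
      Nat.cast_div (Nat.dvd_of_mem_divisors hd) (by exact_mod_cast hd0.ne')]
  have h1 : (Nat.totient m : ℝ) / m * H = ∑ d ∈ m.divisors, ((μ d : ℤ) : ℝ) * ((H : ℝ) / d) := by
    rw [h0, sum_div, sum_mul]
    apply sum_congr rfl
    intro d _
    field_simp
  rw [h1, Cp_eq hm, ← sum_sub_distrib]
  refine (abs_sum_le_sum_abs _ _).trans ?_
  have h2 : ∀ d ∈ m.divisors, |((μ d : ℤ) : ℝ) * ((((x + H) / d : ℕ) : ℝ) - ((x / d : ℕ) : ℝ)) -
      ((μ d : ℤ) : ℝ) * ((H : ℝ) / d)| ≤ 1 := by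
    intro d hd
    have hd0 : 0 < d := Nat.pos_of_mem_divisors hd
    have hdr : (0 : ℝ) < d := by exact_mod_cast hd0
    rw [← mul_sub, abs_mul]
    have a1 : |((μ d : ℤ) : ℝ)| ≤ 1 := by
      exact_mod_cast ArithmeticFunction.abs_moebius_le_one
    have a2 : |(((x + H) / d : ℕ) : ℝ) - ((x / d : ℕ) : ℝ) - (H : ℝ) / d| ≤ 1 := by
      have b1 : ((x + H : ℕ) : ℝ) = ((x + H) % d : ℕ) + d * ((x + H) / d : ℕ) := by
        exact_mod_cast (Nat.mod_add_div (x + H) d).symm
      have b2 : (x : ℝ) = (x % d : ℕ) + d * (x / d : ℕ) := by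
        exact_mod_cast (Nat.mod_add_div x d).symm
      have c1 : (((x + H) % d : ℕ) : ℝ) < d := by exact_mod_cast Nat.mod_lt _ hd0
      have c2 : ((x % d : ℕ) : ℝ) < d := by exact_mod_cast Nat.mod_lt _ hd0
      have c3 : (0 : ℝ) ≤ (((x + H) % d : ℕ) : ℝ) := Nat.cast_nonneg _
      have c4 : (0 : ℝ) ≤ ((x % d : ℕ) : ℝ) := Nat.cast_nonneg _
      have e : (((x + H) / d : ℕ) : ℝ) - ((x / d : ℕ) : ℝ) - (H : ℝ) / d =
          (((x % d : ℕ) : ℝ) - (((x + H) % d : ℕ) : ℝ)) / d := by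
        rw [eq_div_iff hdr.ne', sub_mul, div_mul_cancel₀ _ hdr.ne']
        push_cast at b1
        linarith
      rw [e, abs_div, abs_of_pos hdr, div_le_one hdr, abs_le]
      constructor <;> linarith
    calc _ ≤ 1 * 1 := mul_le_mul a1 a2 (abs_nonneg _) (by norm_num)
      _ = 1 := one_mul 1
  refine (sum_le_sum h2).trans ?_
  rw [sum_const, nsmul_eq_mul, mul_one]
  exact card_divisors_le m (by omega)

end Pool.Agent.K9h92.EI
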