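import Mathlib

/-! Inequalities valid for all large moduli. -/

set_option autoImplicit false

namespace Pool.Agent.K9h92.EI
open Finset Filter

lemma evr (r : ℝ) (hr : 0 < r) (C : ℝ) : ∀ᶠ m : ℕ in atTop, C ≤ (m : ℝ) ^ r :=
  ((tendsto_rpow_atTop hr).comp tendsto_natCast_atTop_atTop).eventually_ge_atTop C

lemma ev_all (δ η : ℝ) (hδ : 0 < δ) (_hδ1 : δ < 1) (hη : 0 < η) (N : ℕ) : ∃ m₀ : ℕ, 3 ≤ m₀ ∧ ∀ m : ℕ, m₀ ≤ m →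
    (100 + 10 * (N : ℝ)) ≤ (m : ℝ) ^ (2 / 3 : ℝ) ∧
    5 * (m : ℝ) ^ ((1 + δ / 3) * (1 - δ)) ≤ (m : ℝ) ^ (1 - δ / 3) ∧
    40 * Real.log m ^ 2 ≤ η * (m : ℝ) ^ (2 / 3 : ℝ) ∧
    3 * (m : ℝ) ^ (1 / 2 : ℝ) ≤ (m : ℝ) ^ (2 / 3 : ℝ) ∧
    6 * Real.log m * (m : ℝ) ^ (1 / 2 : ℝ) ≤ (m : ℝ) ^ (2 / 3 : ℝ) := by
  have hθ : 0 < (1 - δ / 3) - (1 + δ / 3) * (1 - δ) := by nlinarith
  obtain ⟨m₀, hm₀⟩ := eventually_atTop.1 ((evr (2 / 3) (by norm_num) (100 + 10 * (N : ℝ))).and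
    ((evr _ hθ 5).and ((evr (7 / 12) (by norm_num) (40 * 576 / η)).and
      ((evr (1 / 6) (by norm_num) 3).and (evr (1 / 8) (by norm_num) 144)))))
  refine ⟨max m₀ 3, le_max_right _ _, fun m hm => ?_⟩
  obtain ⟨h1, h2, h3, h4, h5⟩ := hm₀ m ((le_max_left _ _).trans hm)
  have hm3 : 3 ≤ m := (le_max_right _ _).trans hm
  have hmr : (0 : ℝ) < m := by exact_mod_cast (by omega : 0 < m)
  have hm1 : (1 : ℝ) ≤ m := by exact_mod_cast (by omega : 1 ≤ m)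
  have hL0 : 0 ≤ Real.log m := Real.log_nonneg hm1
  have hl := Real.log_le_rpow_div hmr.le (show (0 : ℝ) < 1 / 24 by norm_num)
  have hl' : Real.log m ≤ 24 * (m : ℝ) ^ (1 / 24 : ℝ) := by
    rw [div_div_eq_mul_div, div_one] at hl
    linarith
  refine ⟨h1, ?_, ?_, ?_, ?_⟩
  · calc 5 * (m : ℝ) ^ ((1 + δ / 3) * (1 - δ)) ≤
        (m : ℝ) ^ ((1 - δ / 3) - (1 + δ / 3) * (1 - δ)) * (m : ℝ) ^ ((1 + δ / 3) * (1 - δ)) :=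
          mul_le_mul_of_nonneg_right h2 (by positivity)
      _ = _ := by rw [← Real.rpow_add hmr]; congr 1; ring
  · have a1 : Real.log m ^ 2 ≤ 576 * (m : ℝ) ^ (1 / 12 : ℝ) := by
      calc Real.log m ^ 2 ≤ (24 * (m : ℝ) ^ (1 / 24 : ℝ)) ^ 2 := pow_le_pow_left₀ hL0 hl' 2
        _ = 576 * ((m : ℝ) ^ (1 / 24 : ℝ) * (m : ℝ) ^ (1 / 24 : ℝ)) := by ring
        _ = _ := by rw [← Real.rpow_add hmr]; norm_num
    rw [div_le_iff₀ hη] at h3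
    calc 40 * Real.log m ^ 2 ≤ 40 * (576 * (m : ℝ) ^ (1 / 12 : ℝ)) := by linarith
      _ = (40 * 576) * (m : ℝ) ^ (1 / 12 : ℝ) := by ring
      _ ≤ ((m : ℝ) ^ (7 / 12 : ℝ) * η) * (m : ℝ) ^ (1 / 12 : ℝ) :=
          mul_le_mul_of_nonneg_right h3 (by positivity)
      _ = η * ((m : ℝ) ^ (7 / 12 : ℝ) * (m : ℝ) ^ (1 / 12 : ℝ)) := by ring
      _ = _ := by rw [← Real.rpow_add hmr]; norm_num
  · calc 3 * (m : ℝ) ^ (1 / 2 : ℝ) ≤ (m : ℝ) ^ (1 / 6 : ℝ) * (m : ℝ) ^ (1 / 2 : ℝ) :=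
          mul_le_mul_of_nonneg_right h4 (by positivity)
      _ = _ := by rw [← Real.rpow_add hmr]; norm_num
  · calc 6 * Real.log m * (m : ℝ) ^ (1 / 2 : ℝ) ≤ 6 * (24 * (m : ℝ) ^ (1 / 24 : ℝ)) * (m : ℝ) ^ (1 / 2 : ℝ) := by
          gcongr
      _ = 144 * ((m : ℝ) ^ (1 / 24 : ℝ) * (m : ℝ) ^ (1 / 2 : ℝ)) := by ring
      _ ≤ (m : ℝ) ^ (1 / 8 : ℝ) * ((m : ℝ) ^ (1 / 24 : ℝ) * (m : ℝ) ^ (1 / 2 : ℝ)) :=
          mul_le_mul_of_nonneg_right h5 (by positivity)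
      _ = _ := by rw [← Real.rpow_add hmr, ← Real.rpow_add hmr]; norm_num

end Pool.Agent.K9h92.EI
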