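import Mathlib
import Pool.Agent.H262R2.UK.Bd

/-! Moments of the number of primes `i + u + j m`, `j < K`, over the `i ≤ h` with `i + u` prime to `m`. -/

set_option autoImplicit false

namespace Pool.Agent.K9h92.EI
open Finset
open Pool.Agent.H262R2.UK Pool.Agent.H646

/-- number of primes `p ≡ a (mod m)` with `z < p ≤ z + y` -/
def cnt (m z y a : ℕ) : ℕ := #{p ∈ Ioc z (z + y) | p.Prime ∧ p ≡ a [MOD m]}

/-- the indices `i ≤ h` with `i + u` prime to `m` -/
def Om (m u h : ℕ) : Finset ℕ := {i ∈ Icc 1 h | (i + u).Coprime m}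

/-- number of primes `i + u + j m`, `j < K` -/
def R (m u K i : ℕ) : ℕ := #{j ∈ range K | (i + (u + j * m)).Prime}

lemma pos (m x H z : ℕ) (hm : 0 < m) (hH : H ≤ m) : ∃ x' u : ℕ, x ≤ x' ∧ x' + H / 2 ≤ x + H ∧
    u ≡ x' [MOD m] ∧ z ≤ u ∧ u + H / 2 ≤ z + m := by
  obtain ⟨u0, h1, h2, h3⟩ : ∃ u0, z ≤ u0 ∧ u0 < z + m ∧ u0 ≡ x [MOD m] := by
    refine ⟨z + (x + (m - z % m)) % m, by omega, by have := Nat.mod_lt (x + (m - z % m)) hm; omega, ?_⟩
    have hz := Nat.mod_lt z hm
    have e1 : z + (x + (m - z % m)) % m ≡ z % m + (x + (m - z % m)) [MOD m] :=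
      Nat.ModEq.add (Nat.mod_modEq z m).symm (Nat.mod_modEq _ _)
    have e2 : z % m + (x + (m - z % m)) = x + m := by omega
    rw [e2] at e1
    exact e1.trans (by unfold Nat.ModEq; exact Nat.add_mod_right x m)
  rcases le_or_gt (u0 + H / 2) (z + m) with h | h
  · exact ⟨x, u0, le_rfl, by omega, h3, h1, h⟩
  · refine ⟨x + (z + m - u0), z, by omega, by omega, ?_, le_rfl, by omega⟩
    have h4 := h3.add_right (z + m - u0)
    rw [show u0 + (z + m - u0) = z + m by omega] at h4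
    exact (show z ≡ z + m [MOD m] by unfold Nat.ModEq; exact (Nat.add_mod_right z m).symm).trans h4

lemma R_le {m u h x' z K y i : ℕ} (hm : 0 < m) (hu : u ≡ x' [MOD m]) (hz : z ≤ u) (hh : u + h ≤ z + m)
    (hK : K * m ≤ y) (hi : i ∈ Icc 1 h) : R m u K i ≤ cnt m z y (x' + i) := by
  unfold R cnt
  rw [mem_Icc] at hi
  apply card_le_card_of_injOn (fun j => i + (u + j * m))
  · intro j hj
    rw [mem_coe, mem_filter, mem_range] at hj
    obtain ⟨hj, hp⟩ := hj
    rw [mem_coe, mem_filter, mem_Ioc]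
    have h1 : (j + 1) * m ≤ K * m := Nat.mul_le_mul_right m hj
    rw [add_mul, one_mul] at h1
    beta_reduce
    refine ⟨⟨by omega, by omega⟩, hp, ?_⟩
    have h2 : i + (u + j * m) = (u + i) + m * j := by ring
    show i + (u + j * m) ≡ x' + i [MOD m]
    rw [h2]
    refine Nat.ModEq.trans ?_ (hu.add_right i)
    unfold Nat.ModEq
    exact Nat.add_mul_mod_self_left (u + i) m j
  · intro j _ j' _ h2
    have h3 : j * m = j' * m := by
      have h4 : i + (u + j * m) = i + (u + j' * m) := h2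
      omega
    exact Nat.eq_of_mul_eq_mul_right hm h3

lemma sum_R (m u K h : ℕ) : ∑ i ∈ Om m u h, R m u K i =
    ∑ j ∈ range K, #{i ∈ Om m u h | (i + (u + j * m)).Prime} := by
  unfold R
  simp_rw [card_filter]
  rw [sum_comm]

lemma win (m u h j : ℕ) (hm : 0 < m) : #{i ∈ Icc 1 h | (i + (u + j * m)).Prime} ≤
    #{i ∈ Om m u h | (i + (u + j * m)).Prime} + #m.primeFactors := by
  have h1 : {i ∈ Icc 1 h | (i + (u + j * m)).Prime} ⊆ {i ∈ Om m u h | (i + (u + j * m)).Prime} ∪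
      {i ∈ Icc 1 h | i + (u + j * m) ∈ m.primeFactors} := by
    intro i hi
    rw [mem_filter] at hi
    rw [mem_union]
    by_cases hc : (i + u).Coprime m
    · left
      unfold Om
      rw [mem_filter, mem_filter]
      exact ⟨⟨hi.1, hc⟩, hi.2⟩
    · right
      rw [mem_filter, Nat.mem_primeFactors]
      refine ⟨hi.1, hi.2, ?_, hm.ne'⟩
      by_contra hd
      apply hc
      have h3 : (i + (u + j * m)).Coprime m := (Nat.Prime.coprime_iff_not_dvd hi.2).2 hd
      rw [show i + (u + j * m) = i + u + j * m by ring] at h3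
      exact (Nat.coprime_add_mul_right_left (i + u) m j).1 h3
  refine (card_le_card h1).trans ((card_union_le _ _).trans ?_)
  apply Nat.add_le_add_left
  apply card_le_card_of_injOn (fun i => i + (u + j * m))
  · intro i hi
    rw [mem_coe, mem_filter] at hi
    exact hi.2
  · intro i _ i' _ h2
    have h3 : i + (u + j * m) = i' + (u + j * m) := h2
    omega

lemma sum_R_sq (m u K h : ℕ) : (∑ i ∈ Om m u h, (R m u K i) ^ 2) ≤
    ∑ j ∈ range K, ∑ k ∈ range K, #{i ∈ Icc 1 h | (i + (u + j * m)).Prime ∧ (i + (u + k * m)).Prime} := by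
  have h1 : ∀ i, (R m u K i) ^ 2 = ∑ j ∈ range K, ∑ k ∈ range K,
      if (i + (u + j * m)).Prime ∧ (i + (u + k * m)).Prime then 1 else 0 := by
    intro i
    unfold R
    rw [card_filter, sq, sum_mul_sum]
    apply sum_congr rfl
    intro j _
    apply sum_congr rfl
    intro k _
    by_cases a : (i + (u + j * m)).Prime <;> by_cases b : (i + (u + k * m)).Prime <;> simp [a, b]
  calc ∑ i ∈ Om m u h, (R m u K i) ^ 2 ≤ ∑ i ∈ Icc 1 h, (R m u K i) ^ 2 :=
        sum_le_sum_of_subset (filter_subset _ _)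
    _ = _ := by
        simp_rw [h1, card_filter]
        rw [sum_comm]
        apply sum_congr rfl
        intro j _
        rw [sum_comm]

lemma sum_shift (f : ℕ → ℝ) (K : ℕ) : ∑ j ∈ range K, f j = ∑ j ∈ Icc 1 K, f (j - 1) := by
  induction K with
  | zero => simp
  | succ K ih => rw [sum_range_succ, sum_Icc_succ_top (by omega), ih, Nat.add_sub_cancel]

/-- the second moment -/
theorem second : ∃ C1 C2 : ℝ, 0 < C1 ∧ 0 < C2 ∧ ∃ x₀ : ℕ, ∀ h : ℕ, x₀ ≤ h → ∀ m : ℕ, 0 < m → ∀ u K : ℕ,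
    ((∑ i ∈ Om m u h, (R m u K i) ^ 2 : ℕ) : ℝ) ≤
      K * (C1 * h / Real.log h) + C2 * K ^ 2 * h / (Real.log h) ^ 2 * rat m := by
  obtain ⟨C1, hC1, x1, hbt⟩ := bt
  obtain ⟨C2, hC2, x2, hpb⟩ := pair_bound
  obtain ⟨C4, hC4, hmom⟩ := MomentM.rat_moment 1
  refine ⟨C1, 2 * C2 * C4, hC1, by positivity, max x1 x2, ?_⟩
  intro h hh m hm u K
  have hx1 : x1 ≤ h := (le_max_left _ _).trans hh
  have hx2 : x2 ≤ h := (le_max_right _ _).trans hh
  have hrm := rat_pos (n := m) hm
  set D : ℝ := C1 * h / Real.log h with hD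
  set W : ℝ := C2 * h / (Real.log h) ^ 2 * rat m with hW
  have hW0 : 0 ≤ W := by positivity
  have hoff : ∀ j k : ℕ, j < k →
      (#{i ∈ Icc 1 h | (i + (u + j * m)).Prime ∧ (i + (u + k * m)).Prime} : ℝ) ≤ W * rat (k - j) := by
    intro j k hjk
    have h2 := hpb h hx2 (u + j * m) (u + k * m)
      (Nat.add_lt_add_left (Nat.mul_lt_mul_of_pos_right hjk hm) u)
    have h3 : u + k * m - (u + j * m) = m * (k - j) := by
      rw [Nat.add_sub_add_left, ← Nat.sub_mul, mul_comm]
    rw [h3] at h2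
    have h4 := rat_mul_le (m := m) (n := k - j) hm (by omega)
    calc _ ≤ _ := h2
      _ ≤ C2 * h / (Real.log h) ^ 2 * (rat m * rat (k - j)) :=
          mul_le_mul_of_nonneg_left h4 (by positivity)
      _ = W * rat (k - j) := by rw [hW]; ring
  have hrow : ∀ j ∈ Icc 1 K, ∑ k ∈ Icc 1 K,
      (#{i ∈ Icc 1 h | (i + (u + (j - 1) * m)).Prime ∧ (i + (u + (k - 1) * m)).Prime} : ℝ) ≤
        D + 2 * ∑ d ∈ Icc 1 K, W * rat d := by
    intro j hj
    apply pair_sum (fun d => W * rat d) _ K j hj _ D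
    · have h2 := hbt h hx1 (u + (j - 1) * m)
      simp_rw [and_self]
      exact h2
    · intro k hk hjk
      rw [mem_Icc] at hj hk
      have := hoff (j - 1) (k - 1) (by omega)
      rwa [show k - 1 - (j - 1) = k - j by omega] at this
    · intro k hk hjk
      rw [mem_Icc] at hj hk
      have := hoff (k - 1) (j - 1) (by omega)
      rw [show j - 1 - (k - 1) = j - k by omega] at this
      simp_rw [and_comm (a := (_ + (u + (k - 1) * m)).Prime)] at this
      exact this
    · intro d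
      apply mul_nonneg hW0
      unfold rat
      positivity
  have hsum : ∑ d ∈ Icc 1 K, W * rat d ≤ W * (C4 * K) := by
    rw [← mul_sum]
    apply mul_le_mul_of_nonneg_left _ hW0
    have := hmom K
    simpa using this
  have hsh := fun f : ℕ → ℝ => sum_shift f K
  have h5 := sum_R_sq m u K h
  have h6 : ((∑ i ∈ Om m u h, (R m u K i) ^ 2 : ℕ) : ℝ) ≤ ∑ j ∈ range K, ∑ k ∈ range K,
      (#{i ∈ Icc 1 h | (i + (u + j * m)).Prime ∧ (i + (u + k * m)).Prime} : ℝ) := by
    exact_mod_cast h5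
  refine h6.trans ?_
  rw [hsh]
  simp_rw [hsh (fun k => (#{i ∈ Icc 1 h | (i + (u + _ * m)).Prime ∧ (i + (u + k * m)).Prime} : ℝ))]
  refine (sum_le_sum hrow).trans ?_
  rw [sum_const, Nat.card_Icc, nsmul_eq_mul, Nat.add_sub_cancel]
  calc (K : ℝ) * (D + 2 * ∑ d ∈ Icc 1 K, W * rat d) ≤ K * (D + 2 * (W * (C4 * K))) := by gcongr
    _ = _ := by rw [hD, hW]; ring

end Pool.Agent.K9h92.EI
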