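import Mathlib
import Pool.Agent.H295R3.Hoheisel
import Pool.Agent.K9h92.EI.Cop
import Pool.Agent.K9h92.EI.Mom
import Pool.Agent.K9h92.EI.Ev

/-! The lower bound. -/

set_option autoImplicit false

namespace Pool.Agent.K9h92.EI
open Finset Filter
open Pool.Agent.H262R2.UK Pool.Agent.H646

lemma card_Om (m u h : ℕ) : #(Om m u h) ≤ #(Cp m u h) := by
  unfold Om Cp
  apply card_le_card_of_injOn (fun i => i + u)
  · intro i hi
    rw [mem_coe, mem_filter, mem_Icc] at hi
    rw [mem_coe, mem_filter, mem_Ioc]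
    beta_reduce
    exact ⟨by omega, hi.2⟩
  · intro i _ i' _ h2
    have h3 : i + u = i' + u := h2
    omega

lemma Cp_le {m : ℕ} (hm : 3 ≤ m) (u h H : ℕ) (hh : h ≤ H)
    (hH : 6 * Real.log m * (m : ℝ) ^ (1 / 2 : ℝ) ≤ H) :
    ((Cp m u h).card : ℝ) ≤ 2 * ((m.totient : ℝ) / m) * H := by
  have hmr : (3 : ℝ) ≤ m := by exact_mod_cast hm
  have hφ : (0 : ℝ) < m.totient := by exact_mod_cast Nat.totient_pos.2 (by omega)
  have hL : 1 ≤ Real.log m := by
    rw [Real.le_log_iff_exp_le (by linarith)]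
    exact (Real.exp_one_lt_d9.le.trans (by norm_num)).trans hmr
  have h1 := (abs_le.1 (Cp_ge (m := m) (by omega) u h)).2
  have h2 := rat_le_log m (by omega)
  have hl2 : (1 : ℝ) / 2 ≤ Real.log 2 := by
    have := Real.log_two_gt_d9
    linarith
  have h3 : Real.log m / Real.log 2 ≤ 2 * Real.log m := by
    rw [div_le_iff₀ (by linarith)]
    nlinarith
  have h4 : (m : ℝ) / m.totient ≤ 3 * Real.log m := by
    have : (m : ℝ) / m.totient = rat m := rfl
    rw [this]
    linarith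
  have h5 : 1 ≤ 3 * Real.log m * ((m.totient : ℝ) / m) := by
    calc (1 : ℝ) = (m : ℝ) / m.totient * ((m.totient : ℝ) / m) := by field_simp
      _ ≤ _ := by gcongr
  have h6 : 2 * √(m : ℝ) ≤ (m.totient : ℝ) / m * H := by
    rw [Real.sqrt_eq_rpow]
    calc 2 * (m : ℝ) ^ (1 / 2 : ℝ) = 2 * (m : ℝ) ^ (1 / 2 : ℝ) * 1 := by ring
      _ ≤ 2 * (m : ℝ) ^ (1 / 2 : ℝ) * (3 * Real.log m * ((m.totient : ℝ) / m)) := by gcongr
      _ = (m.totient : ℝ) / m * (6 * Real.log m * (m : ℝ) ^ (1 / 2 : ℝ)) := by ring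
      _ ≤ _ := by gcongr
  have h7 : (m.totient : ℝ) / m * h ≤ (m.totient : ℝ) / m * H := by
    have : (h : ℝ) ≤ H := by exact_mod_cast hh
    gcongr
  linarith

/-- lower bound for the number of classes in a short interval of classes -/
theorem lower : ∃ c κ : ℝ, 0 < c ∧ 0 < κ ∧ κ ≤ 1 / 3 ∧ ∃ m₀ : ℕ, 3 ≤ m₀ ∧ ∀ m : ℕ, m₀ ≤ m → ∀ x H z y : ℕ,
    (m : ℝ) ^ (1 - κ) ≤ H → H ≤ m → m ≤ y → ((z + y : ℕ) : ℝ) ≤ (m : ℝ) ^ (1 + κ) →
    c * (H / m) * min (m.totient : ℝ) (y / Real.log m) ≤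
      #{a ∈ Ioc x (x + H) | a.Coprime m ∧ 1 ≤ cnt m z y a ∧
        c * (y / (m.totient * Real.log m)) ≤ cnt m z y a} := by
  obtain ⟨δ, η, hδ, hδ1, hη, X₀, hX₀, hHoh⟩ := Pool.Agent.H295R3.D.hoheisel
  obtain ⟨C1, C2, hC1, hC2, x₀, hsec⟩ := second
  obtain ⟨m₀, hm3, hm₀⟩ := ev_all δ η hδ hδ1 hη (X₀ + x₀)
  refine ⟨min (η ^ 2 / (6400 * (C1 + C2))) (η / 160), δ / 3, by positivity, by positivity, by linarith, m₀, hm3, ?_⟩
  intro m hm x H z y hH1 hH2 hy hzy
  obtain ⟨e1, e2, e3, e4, e5⟩ := hm₀ m hm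
  have hm3' : 3 ≤ m := hm3.trans hm
  have hmpos : 0 < m := by omega
  have hmr3 : (3 : ℝ) ≤ m := by exact_mod_cast hm3'
  have hmr : (0 : ℝ) < m := by linarith
  have hm1 : (1 : ℝ) ≤ m := by linarith
  have hφ : (0 : ℝ) < m.totient := by exact_mod_cast Nat.totient_pos.2 hmpos
  set L := Real.log m with hLdef
  have hL : 1 ≤ L := by
    rw [hLdef, Real.le_log_iff_exp_le hmr]
    exact (Real.exp_one_lt_d9.le.trans (by norm_num)).trans hmr3
  have hL0 : 0 < L := by linarith
  have hH3 : (m : ℝ) ^ (2 / 3 : ℝ) ≤ H :=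
    (Real.rpow_le_rpow_of_exponent_le hm1 (by linarith)).trans hH1
  have hN0 : (0 : ℝ) ≤ ((X₀ + x₀ : ℕ) : ℝ) := Nat.cast_nonneg _
  have hH100 : (100 : ℝ) ≤ H := by linarith
  have hH100' : 100 ≤ H := by exact_mod_cast hH100
  have hHr : (0 : ℝ) < H := by linarith
  set h := H / 2 with hh
  set Y := h / 2 with hY
  have hY1 : (H : ℝ) / 5 ≤ Y := by
    have : H ≤ 4 * Y + 3 := by omega
    have : (H : ℝ) ≤ 4 * Y + 3 := by exact_mod_cast this
    linarith
  have hh1 : (H : ℝ) / 3 ≤ h := by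
    have : H ≤ 2 * h + 1 := by omega
    have : (H : ℝ) ≤ 2 * h + 1 := by exact_mod_cast this
    linarith
  have hhH : h ≤ H := by omega
  have hh2 : (h : ℝ) ≤ H := by exact_mod_cast hhH
  have hNh : X₀ + x₀ ≤ Y := by
    have : ((X₀ + x₀ : ℕ) : ℝ) ≤ Y := by linarith
    exact_mod_cast this
  obtain ⟨x', u, p1, p2, p3, p4, p5⟩ := pos m x H z hmpos hH2
  rw [← hh] at p2 p5
  set K := y / m with hK
  have hK1 : 1 ≤ K := (Nat.one_le_div_iff hmpos).2 hy
  have hKm : K * m ≤ y := Nat.div_mul_le_self y m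
  have hKr : (1 : ℝ) ≤ K := by exact_mod_cast hK1
  have hyK : (y : ℝ) ≤ 2 * K * m := by
    have h1 : y < (K + 1) * m := by
      have := Nat.lt_div_mul_add (a := y) hmpos
      rw [add_mul, one_mul]
      exact this
    have h2 : (K + 1) * m ≤ 2 * K * m := Nat.mul_le_mul_right m (by omega)
    exact_mod_cast h1.le.trans h2
  have hyr : (0 : ℝ) < y := by
    have : (m : ℝ) ≤ y := by exact_mod_cast hy
    linarith
  -- a window
  have hwin : ∀ j ∈ range K, η * H / (20 * L) ≤ (#{i ∈ Om m u h | (i + (u + j * m)).Prime} : ℝ) := by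
    intro j hj
    rw [mem_range] at hj
    set X := u + j * m + (h - Y) with hX
    have hjm : (j + 1) * m ≤ K * m := Nat.mul_le_mul_right m hj
    rw [add_mul, one_mul] at hjm
    have b1 : X₀ ≤ X := by omega
    have b2 : Y ≤ X := by omega
    have b3 : X ≤ z + y := by omega
    have b4 : (X : ℝ) ≤ (m : ℝ) ^ (1 + δ / 3) := le_trans (by exact_mod_cast b3) hzy
    have hX0 : (0 : ℝ) < X := by exact_mod_cast (by omega : 0 < X)
    have hX1 : (1 : ℝ) < X := by exact_mod_cast (by omega : 1 < X)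
    have b5 : (X : ℝ) ^ (1 - δ) ≤ Y := by
      calc (X : ℝ) ^ (1 - δ) ≤ ((m : ℝ) ^ (1 + δ / 3)) ^ (1 - δ) :=
            Real.rpow_le_rpow hX0.le b4 (by linarith)
        _ = (m : ℝ) ^ ((1 + δ / 3) * (1 - δ)) := by rw [← Real.rpow_mul hmr.le]
        _ ≤ (m : ℝ) ^ (1 - δ / 3) / 5 := by linarith
        _ ≤ (H : ℝ) / 5 := by linarith
        _ ≤ Y := hY1
    have b6 := hHoh X Y b1 b5 b2
    have b7 : Real.log X ≤ 2 * L := by
      calc Real.log X ≤ Real.log ((m : ℝ) ^ (1 + δ / 3)) := Real.log_le_log hX0 b4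
        _ = (1 + δ / 3) * L := Real.log_rpow hmr _
        _ ≤ 2 * L := by nlinarith
    have b8 : 0 < Real.log X := Real.log_pos hX1
    have b9 : #((Ioc X (X + Y)).filter Nat.Prime) ≤ #{i ∈ Icc 1 h | (i + (u + j * m)).Prime} := by
      apply card_le_card_of_injOn (fun p => p - (u + j * m))
      · intro p hp
        rw [mem_coe, mem_filter, mem_Ioc] at hp
        obtain ⟨hp1, hp2⟩ := hp
        rw [mem_coe, mem_filter, mem_Icc]
        beta_reduce
        have : p - (u + j * m) + (u + j * m) = p := by omega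
        rw [this]
        exact ⟨by omega, hp2⟩
      · intro p hp p' hp' hpp
        rw [mem_coe, mem_filter, mem_Ioc] at hp hp'
        beta_reduce at hpp
        omega
    have b10 := b9.trans (win m u h j hmpos)
    have b11 : (#((Ioc X (X + Y)).filter Nat.Prime) : ℝ) ≤
        #{i ∈ Om m u h | (i + (u + j * m)).Prime} + #m.primeFactors := by exact_mod_cast b10
    have b12 : (#m.primeFactors : ℝ) ≤ 2 * L := by
      have h1 : 2 ^ #m.primeFactors ≤ m := by
        calc 2 ^ #m.primeFactors = ∏ _p ∈ m.primeFactors, 2 := by rw [Finset.prod_const]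
          _ ≤ ∏ p ∈ m.primeFactors, p :=
              Finset.prod_le_prod' (fun p hp => (Nat.prime_of_mem_primeFactors hp).two_le)
          _ ≤ m := Nat.le_of_dvd hmpos (Nat.prod_primeFactors_dvd m)
      have h2 : (#m.primeFactors : ℝ) * Real.log 2 ≤ Real.log m := by
        rw [← Real.log_pow]
        apply Real.log_le_log (by positivity)
        exact_mod_cast h1
      have hl2 : (1 : ℝ) / 2 ≤ Real.log 2 := by
        have := Real.log_two_gt_d9
        linarith
      have h3 : (0 : ℝ) ≤ #m.primeFactors := Nat.cast_nonneg _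
      nlinarith
    have b13 : η * H / (10 * L) ≤ η * Y / Real.log X := by
      rw [div_le_div_iff₀ (by positivity) b8]
      have hη1 : η * H ≤ η * (5 * Y) := by
        apply mul_le_mul_of_nonneg_left _ hη.le
        linarith
      calc η * H * Real.log X ≤ η * (5 * Y) * (2 * L) :=
            mul_le_mul hη1 b7 b8.le (by positivity)
        _ = η * Y * (10 * L) := by ring
    have b14 : 2 * L ≤ η * H / (20 * L) := by
      rw [le_div_iff₀ (by positivity)]
      calc 2 * L * (20 * L) = 40 * L ^ 2 := by ring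
        _ ≤ η * (m : ℝ) ^ (2 / 3 : ℝ) := e3
        _ ≤ η * H := by gcongr
    have b15 : η * H / (10 * L) = η * H / (20 * L) + η * H / (20 * L) := by
      field_simp
      ring
    linarith
  -- first moment
  set S1 : ℝ := K * (η * H / (20 * L)) with hS1
  have hS1pos : 0 < S1 := by positivity
  have hfirst : S1 ≤ ∑ i ∈ Om m u h, (R m u K i : ℝ) := by
    have h1 : ∑ i ∈ Om m u h, (R m u K i : ℝ) =
        ∑ j ∈ range K, (#{i ∈ Om m u h | (i + (u + j * m)).Prime} : ℝ) := by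
      exact_mod_cast sum_R m u K h
    rw [h1]
    calc S1 = ∑ _j ∈ range K, η * H / (20 * L) := by
          rw [sum_const, card_range, nsmul_eq_mul, hS1]
      _ ≤ _ := sum_le_sum hwin
  -- second moment
  have hlogh : L / 2 ≤ Real.log h := by
    have h1 : (m : ℝ) ^ (1 / 2 : ℝ) ≤ h := by linarith
    calc L / 2 = Real.log ((m : ℝ) ^ (1 / 2 : ℝ)) := by rw [Real.log_rpow hmr]; ring
      _ ≤ _ := Real.log_le_log (by positivity) h1
  have hlogh0 : 0 < Real.log h := by linarith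
  set S2 : ℝ := 2 * C1 * K * H / L + 4 * C2 * K ^ 2 * H * m / (m.totient * L ^ 2) with hS2
  have hS2pos : 0 < S2 := by positivity
  have hsecond : ∑ i ∈ Om m u h, (R m u K i : ℝ) ^ 2 ≤ S2 := by
    have h1 := hsec h (by omega) m hmpos u K
    push_cast at h1
    refine h1.trans ?_
    have h2 : (K : ℝ) * (C1 * h / Real.log h) ≤ 2 * C1 * K * H / L := by
      calc (K : ℝ) * (C1 * h / Real.log h) ≤ K * (C1 * H / (L / 2)) := by gcongr
        _ = _ := by field_simp
    have h3 : C2 * K ^ 2 * h / (Real.log h) ^ 2 * rat m ≤ 4 * C2 * K ^ 2 * H * m / (m.totient * L ^ 2) := by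
      have hr : rat m = (m : ℝ) / m.totient := rfl
      calc C2 * K ^ 2 * h / (Real.log h) ^ 2 * rat m ≤ C2 * K ^ 2 * H / (L / 2) ^ 2 * ((m : ℝ) / m.totient) := by
            rw [hr]
            gcongr
        _ = _ := by field_simp; ring
    linarith
  have hΩle : (#(Om m u h) : ℝ) ≤ 2 * ((m.totient : ℝ) / m) * H := by
    have h1 := Cp_le hm3' u h H hhH (by
      calc 6 * Real.log m * (m : ℝ) ^ (1 / 2 : ℝ) ≤ _ := e5
        _ ≤ _ := hH3)
    refine le_trans ?_ h1
    exact_mod_cast card_Om m u h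
  have hΩpos : 0 < #(Om m u h) := by
    rw [Nat.pos_iff_ne_zero]
    intro h0
    rw [Finset.card_eq_zero.1 h0, sum_empty] at hfirst
    linarith
  have hΩr : (0 : ℝ) < #(Om m u h) := by exact_mod_cast hΩpos
  have hPZ := count_large (Om m u h) (fun i => (R m u K i : ℝ)) S1 S2 hfirst hsecond hS1pos hS2pos hΩpos
  -- the threshold
  have hthr : η / 160 * (y / (m.totient * L)) ≤ S1 / (2 * #(Om m u h)) := by
    rw [le_div_iff₀ (by positivity)]
    calc η / 160 * (y / (m.totient * L)) * (2 * #(Om m u h)) ≤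
        η / 160 * ((2 * K * m) / (m.totient * L)) * (2 * (2 * ((m.totient : ℝ) / m) * H)) := by gcongr
      _ = S1 := by rw [hS1]; field_simp; ring
  -- transfer
  have hcard : #((Om m u h).filter (fun i => S1 / (2 * #(Om m u h)) ≤ (R m u K i : ℝ))) ≤
      #{a ∈ Ioc x (x + H) | a.Coprime m ∧ 1 ≤ cnt m z y a ∧
        min (η ^ 2 / (6400 * (C1 + C2))) (η / 160) * (y / (m.totient * L)) ≤ cnt m z y a} := by
    apply card_le_card_of_injOn (fun i => x' + i)
    · intro i hi
      rw [mem_coe, mem_filter] at hi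
      obtain ⟨hi1, hi2⟩ := hi
      have hi3 := hi1
      unfold Om at hi3
      rw [mem_filter] at hi3
      have hle := R_le hmpos p3 p4 p5 hKm hi3.1
      have hle' : (R m u K i : ℝ) ≤ cnt m z y (x' + i) := by exact_mod_cast hle
      have hi4 := hi3.1
      rw [mem_Icc] at hi4
      rw [mem_coe, mem_filter, mem_Ioc]
      beta_reduce
      refine ⟨by omega, ?_, ?_, ?_⟩
      · have g1 := (p3.add_right i).gcd_eq
        unfold Nat.Coprime
        rw [← g1, add_comm u i]
        exact hi3.2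
      · have g2 : (0 : ℝ) < R m u K i := lt_of_lt_of_le (by positivity) hi2
        have g3 : 0 < R m u K i := by exact_mod_cast g2
        omega
      · refine le_trans ?_ hle'
        refine le_trans ?_ hi2
        refine le_trans ?_ hthr
        apply mul_le_mul_of_nonneg_right (min_le_right _ _) (by positivity)
    · intro i _ i' _ h2
      have h3 : x' + i = x' + i' := h2
      omega
  have hcardr : (#((Om m u h).filter (fun i => S1 / (2 * #(Om m u h)) ≤ (R m u K i : ℝ))) : ℝ) ≤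
      #{a ∈ Ioc x (x + H) | a.Coprime m ∧ 1 ≤ cnt m z y a ∧
        min (η ^ 2 / (6400 * (C1 + C2))) (η / 160) * (y / (m.totient * L)) ≤ cnt m z y a} := by
    exact_mod_cast hcard
  refine le_trans ?_ hcardr
  refine le_trans ?_ hPZ
  rw [le_div_iff₀ (by positivity)]
  set M := min (m.totient : ℝ) (y / L) with hM
  have hM0 : 0 ≤ M := le_min hφ.le (by positivity)
  have hM1 : M ≤ m.totient := min_le_left _ _
  have hM2 : M ≤ 2 * K * m / L := (min_le_right _ _).trans (by gcongr)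
  have hA : 2 * C1 * K * H / L * M ≤ 4 * C1 * K ^ 2 * H * m / L ^ 2 := by
    calc 2 * C1 * K * H / L * M ≤ 2 * C1 * K * H / L * (2 * K * m / L) := by gcongr
      _ = _ := by field_simp; ring
  have hB : 4 * C2 * K ^ 2 * H * m / (m.totient * L ^ 2) * M ≤ 4 * C2 * K ^ 2 * H * m / L ^ 2 := by
    calc 4 * C2 * K ^ 2 * H * m / (m.totient * L ^ 2) * M ≤
        4 * C2 * K ^ 2 * H * m / (m.totient * L ^ 2) * m.totient := by gcongr
      _ = _ := by field_simp
  have hSM : S2 * M ≤ 4 * (C1 + C2) * K ^ 2 * H * m / L ^ 2 := by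
    calc S2 * M = 2 * C1 * K * H / L * M + 4 * C2 * K ^ 2 * H * m / (m.totient * L ^ 2) * M := by
          rw [hS2]; ring
      _ ≤ 4 * C1 * K ^ 2 * H * m / L ^ 2 + 4 * C2 * K ^ 2 * H * m / L ^ 2 := add_le_add hA hB
      _ = _ := by ring
  calc min (η ^ 2 / (6400 * (C1 + C2))) (η / 160) * (H / m) * M * (4 * S2) ≤
      η ^ 2 / (6400 * (C1 + C2)) * (H / m) * M * (4 * S2) := by
        gcongr
        exact min_le_left _ _
    _ = η ^ 2 / (6400 * (C1 + C2)) * (H / m) * 4 * (S2 * M) := by ring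
    _ ≤ η ^ 2 / (6400 * (C1 + C2)) * (H / m) * 4 * (4 * (C1 + C2) * K ^ 2 * H * m / L ^ 2) := by gcongr
    _ = S1 ^ 2 := by rw [hS1]; field_simp; ring

end Pool.Agent.K9h92.EI
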