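import Mathlib
import Pool.Agent.K9h92.EI.Low

/-! The upper bound. -/

set_option autoImplicit false

namespace Pool.Agent.K9h92.EI
open Finset Filter
open Pool.Agent.H262R2.UK Pool.Agent.H646

lemma rep (m x w : ℕ) (hm : 0 < m) : ∃ u, w ≤ u ∧ u < w + m ∧ u ≡ x [MOD m] := by
  refine ⟨w + (x + (m - w % m)) % m, by omega, by have := Nat.mod_lt (x + (m - w % m)) hm; omega, ?_⟩
  have hz := Nat.mod_lt w hm
  have e1 : w + (x + (m - w % m)) % m ≡ w % m + (x + (m - w % m)) [MOD m] :=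
    Nat.ModEq.add (Nat.mod_modEq w m).symm (Nat.mod_modEq _ _)
  have e2 : w % m + (x + (m - w % m)) = x + m := by omega
  rw [e2] at e1
  exact e1.trans (by unfold Nat.ModEq; exact Nat.add_mod_right x m)

lemma int_bt (u H : ℕ) : #{p ∈ Ioc u (u + H) | p.Prime} ≤ #{n ∈ Icc 1 H | (n + u).Prime} := by
  apply card_le_card_of_injOn (fun p => p - u)
  · intro p hp
    rw [mem_coe, mem_filter, mem_Ioc] at hp
    rw [mem_coe, mem_filter, mem_Icc]
    beta_reduce
    rw [show p - u + u = p by omega]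
    exact ⟨by omega, hp.2⟩
  · intro p hp p' hp' h
    rw [mem_coe, mem_filter, mem_Ioc] at hp hp'
    beta_reduce at h
    omega

/-- two members of a complete residue system which are congruent are equal -/
lemma crs {m w a b : ℕ} (h : a ≡ b [MOD m]) (ha : w < a) (ha' : a ≤ w + m) (hb : w < b) (hb' : b ≤ w + m) :
    a = b := by
  rcases le_total a b with hab | hab
  · have h1 := (Nat.modEq_iff_dvd' hab).1 h
    obtain ⟨k, hk⟩ := h1
    rcases Nat.eq_zero_or_pos k with h0 | h0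
    · rw [h0, mul_zero] at hk; omega
    · have : m ≤ m * k := Nat.le_mul_of_pos_right m h0
      omega
  · have h1 := (Nat.modEq_iff_dvd' hab).1 h.symm
    obtain ⟨k, hk⟩ := h1
    rcases Nat.eq_zero_or_pos k with h0 | h0
    · rw [h0, mul_zero] at hk; omega
    · have : m ≤ m * k := Nat.le_mul_of_pos_right m h0
      omega

lemma cover (m x H z y : ℕ) (hm : 0 < m) (hH : H ≤ m) : ∃ U W : ℕ → ℕ,
    #{a ∈ Ioc x (x + H) | 1 ≤ cnt m z y a} ≤ ∑ k ∈ range (y / m + 1),
      (#{n ∈ Icc 1 H | (n + U k).Prime} + #{n ∈ Icc 1 H | (n + W k).Prime}) := by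
  classical
  choose U hU1 hU2 hU3 using fun k : ℕ => rep m x (z + k * m) hm
  refine ⟨U, fun k => z + k * m, ?_⟩
  set T := (range (y / m + 1)).biUnion (fun k => {p ∈ Ioc (U k) (U k + H) | p.Prime} ∪
    {p ∈ Ioc (z + k * m) (z + k * m + H) | p.Prime}) with hT
  have hTc : #T ≤ ∑ k ∈ range (y / m + 1),
      (#{n ∈ Icc 1 H | (n + U k).Prime} + #{n ∈ Icc 1 H | (n + (z + k * m)).Prime}) := by
    refine card_biUnion_le.trans (sum_le_sum fun k _ => ?_)
    exact (card_union_le _ _).trans (Nat.add_le_add (int_bt _ _) (int_bt _ _))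
  refine le_trans ?_ hTc
  have hex : ∀ a ∈ {a ∈ Ioc x (x + H) | 1 ≤ cnt m z y a}, ∃ p ∈ T, p ≡ a [MOD m] := by
    intro a ha
    rw [mem_filter, mem_Ioc] at ha
    obtain ⟨⟨ha1, ha2⟩, ha3⟩ := ha
    have h1 : 0 < cnt m z y a := ha3
    unfold cnt at h1
    obtain ⟨p, hp⟩ := Finset.card_pos.1 h1
    rw [mem_filter, mem_Ioc] at hp
    obtain ⟨⟨hp1, hp2⟩, hp3, hp4⟩ := hp
    refine ⟨p, ?_, hp4⟩
    obtain ⟨k, hk⟩ : ∃ k, k = (p - z - 1) / m := ⟨_, rfl⟩
    have hk1 : k * m ≤ p - z - 1 := by rw [hk]; exact Nat.div_mul_le_self _ _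
    have hk2 : p - z - 1 < k * m + m := by
      rw [hk]
      exact Nat.lt_div_mul_add hm
    have hk3 : k ≤ y / m := by
      rw [hk]
      exact Nat.div_le_div_right (by omega)
    rw [hT, mem_biUnion]
    refine ⟨k, mem_range.2 (by omega), ?_⟩
    rw [mem_union, mem_filter, mem_filter, mem_Ioc, mem_Ioc]
    have u1 := hU1 k
    have u2 := hU2 k
    have u3 := hU3 k
    -- `p ≡ U k + (a - x)`
    have c1 : p ≡ U k + (a - x) [MOD m] := by
      have c2 := (u3.add_right (a - x)).symm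
      rw [show x + (a - x) = a by omega] at c2
      exact hp4.trans c2
    rcases le_or_gt (U k + (a - x)) (z + k * m + m) with h | h
    · left
      have := crs c1 (w := z + k * m) (by omega) (by omega) (by omega) h
      exact ⟨by omega, hp3⟩
    · right
      have c3 : p ≡ U k + (a - x) - m [MOD m] := by
        refine c1.trans ?_
        have c4 : U k + (a - x) = (U k + (a - x) - m) + m := by omega
        unfold Nat.ModEq
        conv_lhs => rw [c4]
        exact Nat.add_mod_right _ m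
      have := crs c3 (w := z + k * m) (by omega) (by omega) (by omega) (by omega)
      exact ⟨by omega, hp3⟩
  choose! f hf1 hf2 using hex
  apply card_le_card_of_injOn f
  · intro a ha
    exact hf1 a ha
  · intro a ha b hb hab
    have h1 := hf2 a ha
    have h2 := hf2 b hb
    rw [hab] at h1
    rw [mem_coe, mem_filter, mem_Ioc] at ha hb
    exact crs (h1.symm.trans h2) (w := x) (by omega) (by omega) (by omega) (by omega)

/-- upper bound for the number of classes in a short interval of classes -/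
theorem upper : ∃ C : ℝ, 0 < C ∧ ∃ m₀ : ℕ, ∀ m : ℕ, m₀ ≤ m → ∀ x H z y : ℕ,
    (m : ℝ) ^ (2 / 3 : ℝ) ≤ H → H ≤ m → m ≤ y →
    (#{a ∈ Ioc x (x + H) | a.Coprime m ∧ 1 ≤ cnt m z y a} : ℝ) ≤
      C * (H / m) * min (m.totient : ℝ) (y / Real.log m) := by
  obtain ⟨C1, hC1, x₀, hbt⟩ := bt
  obtain ⟨m₀, hm3, hm₀⟩ := ev_all (1 / 2) 1 (by norm_num) (by norm_num) (by norm_num) x₀
  refine ⟨max 2 (8 * C1), by positivity, m₀, ?_⟩
  intro m hm x H z y hH1 hH2 hy
  obtain ⟨e1, _, _, e4, e5⟩ := hm₀ m hm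
  have hm3' : 3 ≤ m := hm3.trans hm
  have hmpos : 0 < m := by omega
  have hmr3 : (3 : ℝ) ≤ m := by exact_mod_cast hm3'
  have hmr : (0 : ℝ) < m := by linarith
  have hφ : (0 : ℝ) < m.totient := by exact_mod_cast Nat.totient_pos.2 hmpos
  set L := Real.log m with hLdef
  have hL : 1 ≤ L := by
    rw [hLdef, Real.le_log_iff_exp_le hmr]
    exact (Real.exp_one_lt_d9.le.trans (by norm_num)).trans hmr3
  have hL0 : 0 < L := by linarith
  have hx0 : (0 : ℝ) ≤ (x₀ : ℝ) := Nat.cast_nonneg _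
  have hH100 : (100 : ℝ) ≤ H := by linarith
  have hHr : (0 : ℝ) < H := by linarith
  have hxH : x₀ ≤ H := by
    have : (x₀ : ℝ) ≤ H := by linarith
    exact_mod_cast this
  have hlog : L / 2 ≤ Real.log H := by
    have h0 : 0 < (m : ℝ) ^ (1 / 2 : ℝ) := by positivity
    have h1 : (m : ℝ) ^ (1 / 2 : ℝ) ≤ H := by linarith
    calc L / 2 = Real.log ((m : ℝ) ^ (1 / 2 : ℝ)) := by rw [Real.log_rpow hmr]; ring
      _ ≤ _ := Real.log_le_log (by positivity) h1
  have hym : (1 : ℝ) ≤ y / m := by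
    rw [le_div_iff₀ hmr, one_mul]
    exact_mod_cast hy
  have hyr : (0 : ℝ) < y := by
    have : (m : ℝ) ≤ y := by exact_mod_cast hy
    linarith
  -- bound by the reduced residues
  have hb1 : (#{a ∈ Ioc x (x + H) | a.Coprime m ∧ 1 ≤ cnt m z y a} : ℝ) ≤ 2 * (H / m) * m.totient := by
    have h1 : #{a ∈ Ioc x (x + H) | a.Coprime m ∧ 1 ≤ cnt m z y a} ≤ #(Cp m x H) := by
      unfold Cp
      apply card_le_card
      intro a ha
      rw [mem_filter] at ha ⊢
      exact ⟨ha.1, ha.2.1⟩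
    have h2 := Cp_le hm3' x H H le_rfl (by linarith)
    calc (#{a ∈ Ioc x (x + H) | a.Coprime m ∧ 1 ≤ cnt m z y a} : ℝ) ≤ #(Cp m x H) := by exact_mod_cast h1
      _ ≤ _ := h2
      _ = _ := by ring
  -- bound by the primes
  have hb2 : (#{a ∈ Ioc x (x + H) | a.Coprime m ∧ 1 ≤ cnt m z y a} : ℝ) ≤
      8 * C1 * (H / m) * (y / L) := by
    obtain ⟨U, W, hUW⟩ := cover m x H z y hmpos hH2
    have h1 : #{a ∈ Ioc x (x + H) | a.Coprime m ∧ 1 ≤ cnt m z y a} ≤
        #{a ∈ Ioc x (x + H) | 1 ≤ cnt m z y a} := by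
      apply card_le_card
      intro a ha
      rw [mem_filter] at ha ⊢
      exact ⟨ha.1, ha.2.2⟩
    have h2 : (#{a ∈ Ioc x (x + H) | a.Coprime m ∧ 1 ≤ cnt m z y a} : ℝ) ≤
        ∑ k ∈ range (y / m + 1), ((#{n ∈ Icc 1 H | (n + U k).Prime} : ℝ) +
          #{n ∈ Icc 1 H | (n + W k).Prime}) := by
      exact_mod_cast h1.trans hUW
    have h3 : ∀ k ∈ range (y / m + 1), ((#{n ∈ Icc 1 H | (n + U k).Prime} : ℝ) +
          #{n ∈ Icc 1 H | (n + W k).Prime}) ≤ 4 * C1 * H / L := by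
      intro k _
      have a1 := hbt H hxH (U k)
      have a2 := hbt H hxH (W k)
      have a3 : C1 * H / Real.log H ≤ C1 * H / (L / 2) := by gcongr
      have a4 : 4 * C1 * H / L = C1 * H / (L / 2) + C1 * H / (L / 2) := by
        field_simp
        ring
      linarith
    have h4 : ((y / m + 1 : ℕ) : ℝ) ≤ 2 * (y / m) := by
      have : ((y / m : ℕ) : ℝ) ≤ (y : ℝ) / m := Nat.cast_div_le
      push_cast
      linarith
    calc _ ≤ _ := h2
      _ ≤ ∑ _k ∈ range (y / m + 1), 4 * C1 * H / L := sum_le_sum h3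
      _ = ((y / m + 1 : ℕ) : ℝ) * (4 * C1 * H / L) := by rw [sum_const, card_range, nsmul_eq_mul]
      _ ≤ 2 * (y / m) * (4 * C1 * H / L) := by gcongr
      _ = _ := by field_simp; ring
  rcases min_choice (m.totient : ℝ) (y / L) with h | h
  · rw [h]
    refine hb1.trans ?_
    gcongr
    exact le_max_left _ _
  · rw [h]
    refine hb2.trans ?_
    gcongr
    exact le_max_right _ _

end Pool.Agent.K9h92.EI
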